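import Mathlib

set_option autoImplicit false
open Classical

namespace Pool.Agent.Results.MP_987215_an.Q2False

/-- Q2 of the problem is false: evaluation point 0, self-conjugate nodes with nonnegative real part. -/
theorem result :
    ¬ (∀ (n : ℕ), 1 ≤ n → ∀ k : ℕ, k ≤ n - 1 → ∀ z : Fin n → ℂ, (∀ j, ‖z j‖ ≤ 1) → (∀ j, 0 ≤ (z j).re) →
    (∀ w : ℂ, w.im ≠ 0 →
      (Finset.univ.filter (fun j => z j = w)).card =
        (Finset.univ.filter (fun j => z j = starRingEnd ℂ w)).card) →
    (∀ w : ℂ, w.im = 0 → Even (Finset.univ.filter (fun j => z j = w)).card) →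
    IsLUB {e : ℝ | ∃ g : ℂ → ℂ, ∃ p : Polynomial ℂ,
        Differentiable ℂ g ∧
        (∀ w : ℂ, ‖w‖ ≤ 1 → ‖iteratedDeriv n g w‖ ≤ 1) ∧
        p.degree < (n : WithBot ℕ) ∧
        (∀ j : Fin n, ∀ i : ℕ, i < (Finset.univ.filter (fun l => z l = z j)).card →
          iteratedDeriv i (fun x => p.eval x) (z j) = iteratedDeriv i g (z j)) ∧
        e = ‖iteratedDeriv k g 0 - iteratedDeriv k (fun x => p.eval x) 0‖}
      (‖iteratedDeriv k (fun x => (∏ j : Fin n, (Polynomial.X - Polynomial.C (z j))).eval x) 0‖
        / (n.factorial : ℝ))) := by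
  intro h
  set a : ℂ := ⟨1 / 10, 9 / 10⟩ with ha
  set b : ℂ := ⟨1 / 10, -(9 / 10)⟩ with hb
  have hab : a ≠ b := by
    intro e
    have := congrArg Complex.im e
    simp [ha, hb] at this
    norm_num at this
  have na : ‖a‖ ≤ 1 := by
    rw [Complex.norm_eq_sqrt_sq_add_sq, Real.sqrt_le_left (by norm_num)]
    simp [ha]; norm_num
  have nb : ‖b‖ ≤ 1 := by
    rw [Complex.norm_eq_sqrt_sq_add_sq, Real.sqrt_le_left (by norm_num)]
    simp [hb]; norm_num
  have cab : starRingEnd ℂ a = b := by
    apply Complex.ext <;> simp [ha, hb]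
  have cba : starRingEnd ℂ b = a := by
    apply Complex.ext <;> simp [ha, hb]
  have sumab : a + b = 1 / 5 := by
    apply Complex.ext <;> simp [ha, hb] <;> norm_num
  have pa : a ^ 2 = 1 / 5 * a - 41 / 50 := by
    apply Complex.ext <;> simp [ha, pow_two] <;> norm_num
  have pb : b ^ 2 = 1 / 5 * b - 41 / 50 := by
    apply Complex.ext <;> simp [hb, pow_two] <;> norm_num
  have H := h 2 (by norm_num) 1 (by norm_num) ![a, b]
    (by intro j; fin_cases j <;> simp [na, nb])
    (by intro j; fin_cases j <;> simp [ha, hb])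
    (by
      intro w _
      rw [Finset.card_filter, Finset.card_filter, Fin.sum_univ_two, Fin.sum_univ_two]
      have e1 : (a = starRingEnd ℂ w) ↔ (b = w) := by
        constructor
        · intro e; rw [← cab, e]; simp
        · intro e; rw [← e, cba]
      have e2 : (b = starRingEnd ℂ w) ↔ (a = w) := by
        constructor
        · intro e; rw [← cba, e]; simp
        · intro e; rw [← e, cab]
      simp only [Matrix.cons_val_zero, Matrix.cons_val_one, e1, e2]
      exact add_comm _ _)
    (by
      intro w hw
      rw [Finset.card_filter, Fin.sum_univ_two]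
      have e1 : ¬ (a = w) := by
        intro e; rw [← e] at hw; simp [ha] at hw
      have e2 : ¬ (b = w) := by
        intro e; rw [← e] at hw; simp [hb] at hw
      simp [e1, e2])
  have d1 : deriv (fun x : ℂ => x ^ 3 / 6) = fun x => x ^ 2 / 2 := by
    funext x
    have : HasDerivAt (fun x : ℂ => x ^ 3 / 6) (x ^ 2 / 2) x := by
      refine ((hasDerivAt_pow 3 x).div_const 6).congr_deriv ?_
      norm_num; ring
    exact this.deriv
  have d2 : deriv (fun x : ℂ => x ^ 2 / 2) = fun x => x := by
    funext x
    have : HasDerivAt (fun x : ℂ => x ^ 2 / 2) x x := by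
      refine ((hasDerivAt_pow 2 x).div_const 2).congr_deriv ?_
      norm_num
    exact this.deriv
  have mem := (mem_upperBounds.mp H.1) (13 / 100) ⟨fun x => x ^ 3 / 6,
    Polynomial.C (-13 / 100) * Polynomial.X + Polynomial.C (-41 / 1500), by fun_prop,
    by
      intro w hw
      rw [iteratedDeriv_succ, iteratedDeriv_one, d1, d2]
      exact hw,
    by
      refine lt_of_le_of_lt Polynomial.degree_linear_le ?_
      exact_mod_cast (by norm_num : (1 : ℕ) < 2),
    by
      intro j i hi
      have hi0 : i = 0 := by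
        rw [Finset.card_filter, Fin.sum_univ_two] at hi
        fin_cases j
        · simp [hab.symm] at hi; exact hi
        · simp [hab] at hi; exact hi
      subst hi0
      fin_cases j
      · simp
        linear_combination (-(a + 1 / 5) / 6) * pa
      · simp
        linear_combination (-(b + 1 / 5) / 6) * pb,
    by
      rw [iteratedDeriv_one, iteratedDeriv_one, d1, Polynomial.deriv]
      simp
      ⟩
  rw [iteratedDeriv_one, Polynomial.deriv, Fin.prod_univ_two] at mem
  simp at mem
  rw [show (-b + -a) = ((-1 / 5 : ℝ) : ℂ) by push_cast; linear_combination -sumab, Complex.norm_real] at mem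
  norm_num at mem

end Pool.Agent.Results.MP_987215_an.Q2False
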